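import Pool.Agent.helper56.CY.Spec

/-! # Row PLE (MP_45d809_mp) -/

set_option autoImplicit false

namespace Pool.Agent.CY
open Finset CT

variable {V : Type} {G : SimpleGraph V}

/-- the boundary of a face -/
def PLE_C (R : Rotation G) (f : R.Face) : SimpleGraph V where
  Adj a b := ∃ d : G.Dart, R.face d = f ∧ ((d.fst = a ∧ d.snd = b) ∨ (d.fst = b ∧ d.snd = a))
  symm := ⟨fun _ _ ⟨d, h, h'⟩ => ⟨d, h, h'.symm⟩⟩
  loopless := ⟨fun a ⟨d, _, h⟩ => by
    rcases h with ⟨h1, h2⟩ | ⟨h1, h2⟩ <;> exact d.adj.ne (h1.trans h2.symm)⟩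

theorem PLE_phi_fst (R : Rotation G) (d : G.Dart) : (R.phi d).fst = d.snd := R.fst d.symm

theorem PLE_face_phi (R : Rotation G) (d : G.Dart) : R.face (R.phi d) = R.face d := by
  apply Quotient.sound
  change R.phi.SameCycle (R.phi d) d
  rw [Equiv.Perm.sameCycle_apply_left]

theorem PLE_ext {d d' : G.Dart} (h1 : d.fst = d'.fst) (h2 : d.snd = d'.snd) : d = d' := by
  apply SimpleGraph.Dart.ext
  exact Prod.ext h1 h2

theorem PLE_symm (R : Rotation G) {κ : R.Face → Bool} (hκ : R.Proper κ) {d d' : G.Dart} (h1 : d.fst = d'.snd)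
    (h2 : d.snd = d'.fst) (h : κ (R.face d) = κ (R.face d')) : False := by
  have e : d' = d.symm := PLE_ext h2.symm h1.symm
  rw [e] at h
  exact hκ d h.symm

theorem PLE_even [Finite V] (R : Rotation G) {κ : R.Face → Bool} (hκ : R.Proper κ) (f : R.Face) (v : V) :
    Even (Nat.card {w // (PLE_C R f).Adj v w}) := by
  haveI : Finite G.Dart := Finite.of_injective (fun d : G.Dart => d.toProd) (fun _ _ h => SimpleGraph.Dart.ext _ _ h)
  let g : {d : G.Dart // R.face d = f ∧ d.fst = v} ⊕ {d : G.Dart // R.face d = f ∧ d.snd = v} →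
      {w // (PLE_C R f).Adj v w} :=
    Sum.elim (fun d => ⟨d.1.snd, d.1, d.2.1, Or.inl ⟨d.2.2, rfl⟩⟩) (fun d => ⟨d.1.fst, d.1, d.2.1, Or.inr ⟨rfl, d.2.2⟩⟩)
  have hg : Function.Bijective g := by
    constructor
    · rintro (⟨d, hd⟩ | ⟨d, hd⟩) (⟨d', hd'⟩ | ⟨d', hd'⟩) h
      · have h1 : d.snd = d'.snd := congrArg Subtype.val h
        rw [Sum.inl.injEq, Subtype.mk.injEq]
        exact PLE_ext (hd.2.trans hd'.2.symm) h1
      · exfalso
        have h1 : d.snd = d'.fst := congrArg Subtype.val h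
        exact PLE_symm R hκ (hd.2.trans hd'.2.symm) h1 (by rw [hd.1, hd'.1])
      · exfalso
        have h1 : d.fst = d'.snd := congrArg Subtype.val h
        exact PLE_symm R hκ h1 (hd.2.trans hd'.2.symm) (by rw [hd.1, hd'.1])
      · have h1 : d.fst = d'.fst := congrArg Subtype.val h
        rw [Sum.inr.injEq, Subtype.mk.injEq]
        exact PLE_ext h1 (hd.2.trans hd'.2.symm)
    · rintro ⟨w, d, hd, h | h⟩
      · exact ⟨Sum.inl ⟨d, hd, h.1⟩, Subtype.ext h.2⟩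
      · exact ⟨Sum.inr ⟨d, hd, h.2⟩, Subtype.ext h.1⟩
  have h2 : {d : G.Dart // R.face d = f ∧ d.snd = v} ≃ {d : G.Dart // R.face d = f ∧ d.fst = v} :=
    R.phi.subtypeEquiv fun d => by rw [PLE_face_phi, PLE_phi_fst]
  rw [← Nat.card_eq_of_bijective g hg, Nat.card_sum, Nat.card_congr h2]
  exact ⟨_, rfl⟩

theorem PLE : PLE_stmt := by
  intro V _ G R κ x hκ
  haveI : Finite G.Dart := Finite.of_injective (fun d : G.Dart => d.toProd) (fun _ _ h => SimpleGraph.Dart.ext _ _ h)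
  haveI : Finite R.Face := Quotient.finite _
  let e : {f : R.Face // κ f = x} ≃ Fin (R.num κ x) := Finite.equivFin _
  refine ⟨fun i => PLE_C R (e.symm i).1, ⟨?_, ?_, ?_, ?_⟩, ?_⟩
  · rintro i a b ⟨d, _, h | h⟩
    · rw [← h.1, ← h.2]
      exact d.adj
    · rw [← h.1, ← h.2]
      exact d.adj.symm
  · intro i h
    obtain ⟨d, hd⟩ := Quotient.exists_rep (e.symm i).1
    have h1 : (PLE_C R (e.symm i).1).Adj d.fst d.snd := ⟨d, hd, Or.inl ⟨rfl, rfl⟩⟩
    rw [h] at h1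
    exact h1
  · intro i v
    exact PLE_even R hκ _ v
  · rintro i j hij u w ⟨d, hd, h⟩ ⟨d', hd', h'⟩
    have k : κ (R.face d) = κ (R.face d') := by rw [hd, hd', (e.symm i).2, (e.symm j).2]
    have key : d = d' ∨ (d.fst = d'.snd ∧ d.snd = d'.fst) := by
      rcases h with h | h <;> rcases h' with h' | h'
      · exact Or.inl (PLE_ext (h.1.trans h'.1.symm) (h.2.trans h'.2.symm))
      · exact Or.inr ⟨h.1.trans h'.2.symm, h.2.trans h'.1.symm⟩
      · exact Or.inr ⟨h.1.trans h'.2.symm, h.2.trans h'.1.symm⟩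
      · exact Or.inl (PLE_ext (h.1.trans h'.1.symm) (h.2.trans h'.2.symm))
    rcases key with k1 | ⟨k1, k2⟩
    · apply hij
      apply e.symm.injective
      apply Subtype.ext
      rw [← hd, ← hd', k1]
    · exact PLE_symm R hκ k1 k2 k
  · intro u w huw
    have hne := hκ ⟨(u, w), huw⟩
    by_cases h : κ (R.face ⟨(u, w), huw⟩) = x
    · refine ⟨e ⟨_, h⟩, ?_⟩
      change (PLE_C R (e.symm (e ⟨_, h⟩)).1).Adj u w
      rw [Equiv.symm_apply_apply]
      exact ⟨⟨(u, w), huw⟩, rfl, Or.inl ⟨rfl, rfl⟩⟩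
    · have h' : κ (R.face (SimpleGraph.Dart.symm ⟨(u, w), huw⟩)) = x := by
        revert hne h
        cases κ (R.face (SimpleGraph.Dart.symm ⟨(u, w), huw⟩)) <;> cases κ (R.face ⟨(u, w), huw⟩) <;> cases x <;> simp
      refine ⟨e ⟨_, h'⟩, ?_⟩
      change (PLE_C R (e.symm (e ⟨_, h'⟩)).1).Adj u w
      rw [Equiv.symm_apply_apply]
      exact ⟨_, rfl, Or.inr ⟨rfl, rfl⟩⟩

end Pool.Agent.CY
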